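import Mathlib
import Pool.Agent.V11233.PT.Main
import Pool.Agent.V11233.PT.Aut

/-!
# Parikh tree automata with reset are more powerful than Parikh tree automata

The language `L` over the symbols `σ` (rank 2), `a` (rank 1), `α` (rank 0) consists of `α` and of the
trees `a ^ n (σ (a ^ n (α), r))` with `r ∈ L`. It is recognized by a PTAR with two counters. It is
recognized by no PTA, of any dimension.

Idea. A semilinear set `C` is determined by finitely many integer linear forms `φ` up to a threshold
`K` and a modulus `p`: if `x ≡ y` mod `p` and for every form `φ x = φ y`, or `φ x, φ y > K`, or
`φ x, φ y < -K`, then `x ∈ C ↔ y ∈ C`. Let `r` be the number of the forms for the set of a PTA for `L`.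
Take trees with `r + 1` segments whose lengths `n_r, …, n_0` (from the root) are chosen on quickly
decreasing scales `N_j ≤ n_j < 2 N_j`. Consider the state and the counters `w_j` at the beginning of the
`j`-th branch. If no form satisfies `L_j < |φ (w_j)| ≤ K_j`, where `K_j` is proportional to `N_j` and `L_j`
to `N_{j-1}`, then there are few (in terms of `N_{j-1}`) classes of `(state, w_j)` with respect to the
acceptance of branches shorter than `2 N_j`, so `n_j` could be changed without changing the class,
and the branch of the first tree would be accepted in the second one. So for most
tuples there is such a form `φ_j` for every `j`. As there are more segments than forms, two of these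
forms are equal, which is impossible, because after the `j`-th branch the value of `φ_j` stays large.
-/

set_option autoImplicit false

namespace Pool.Agent.Results.MP_78a33a_lc.ResetNeeded

open Pool.Agent.V11233.PT

/-- **Main result.** There is a tree language that is recognized by a Parikh tree automaton with
reset but by no Parikh tree automaton (of any dimension). -/
theorem result :
    ∃ (α : Type) (_ : Finite α) (rk : α → ℕ) (Lg : Set (Tree α rk)),
      (∃ (m : ℕ) (A : PTAR α rk m), 1 ≤ m ∧ A.lang = Lg) ∧
      ¬ ∃ (m : ℕ) (A : PTAR α rk m), A.NoReset ∧ A.lang = Lg := by
  refine ⟨Sym, inferInstance, rks, {t | L t}, ⟨2, Aut, by norm_num, lang_eq⟩, ?_⟩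
  rintro ⟨m, A, hno, hL⟩
  exact not_pta A hno hL

end Pool.Agent.Results.MP_78a33a_lc.ResetNeeded
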